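import Mathlib

/-!
# MP_718be6_lc, Q1: an internal-variable-free normal logic program without L-stable model
-/

set_option autoImplicit false

namespace Pool.Agent.Results.MP_718be6_lc.NoLStable

open FirstOrder FirstOrder.Language

/-- First-order languages. -/
abbrev Lang := FirstOrder.Language.{0, 0}

/-- Atoms over the language `L` with variables in `V`. -/
structure Atom (L : Lang) (V : Type) where
  /-- arity -/
  n : ℕ
  /-- predicate symbol -/
  rel : L.Relations n
  /-- arguments -/
  args : Fin n → L.Term V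

/-- Rules `head ← pos, ∼ neg`. -/
structure Rule (L : Lang) (V : Type) where
  /-- the head -/
  head : Atom L V
  /-- the atoms occurring positively in the body -/
  pos : List (Atom L V)
  /-- the atoms occurring under default negation in the body -/
  neg : List (Atom L V)

/-- Normal logic programs: finite sets (lists) of rules, with variables in `ℕ`. -/
abbrev Program (L : Lang) := List (Rule L ℕ)

/-- The Herbrand base: ground atoms. -/
abbrev HB (L : Lang) := Atom L Empty

variable {L : Lang}

/-- The variables of an atom. -/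
def Atom.vars (A : Atom L ℕ) : Set ℕ := {x | ∃ i, x ∈ (A.args i).varFinset}

/-- Each variable occurring in the body of a rule also occurs in its head. -/
def InternalVariableFree (P : Program L) : Prop :=
  ∀ r ∈ P, ∀ A ∈ r.pos ++ r.neg, A.vars ⊆ r.head.vars

/-- Ground instance of an atom. -/
def Atom.inst (A : Atom L ℕ) (σ : ℕ → L.Term Empty) : HB L :=
  ⟨A.n, A.rel, fun i => (A.args i).subst σ⟩

/-- Ground instance of a rule. -/
def Rule.inst (r : Rule L ℕ) (σ : ℕ → L.Term Empty) : Rule L Empty :=
  ⟨r.head.inst σ, r.pos.map (·.inst σ), r.neg.map (·.inst σ)⟩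

/-- The set of ground instances of the rules of `P`. -/
def gr (P : Program L) : Set (Rule L Empty) := {q | ∃ r ∈ P, ∃ σ, q = r.inst σ}

/-- Three-valued interpretations; the truth values `0, u, 1` are `0, 1, 2 : Fin 3`, in the truth
order. -/
abbrev Interp (L : Lang) := HB L → Fin 3

/-- Rules of the reduct: a head, a list of positive body atoms, and whether the body contains the
special atom `𝐮`. -/
structure PRule (L : Lang) where
  /-- the head -/
  head : HB L
  /-- the positive body atoms -/
  pos : List (HB L)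
  /-- does the body contain the special atom of value `u`? -/
  u : Bool

/-- The reduct `P ^ I`: rules with some `∼ b` in the body, `I b = 1`, are deleted; literals `∼ b`
with `I b = 0` are deleted, and those with `I b = u` are replaced by the atom `𝐮`. -/
def reduct (P : Program L) (I : Interp L) : Set (PRule L) :=
  {q | ∃ r ∈ gr P, (∀ b ∈ r.neg, I b ≠ 2) ∧ q.head = r.head ∧ q.pos = r.pos ∧
    (q.u = true ↔ ∃ b ∈ r.neg, I b = 1)}

/-- Value of the body of a rule of the reduct (the minimum; an empty body has value `1`). -/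
def PRule.body (q : PRule L) (J : Interp L) : Fin 3 :=
  min (q.pos.foldr (fun b v => min (J b) v) 2) (if q.u then 1 else 2)

/-- `J` is a three-valued model of the positive program `Q`. -/
def IsModel (Q : Set (PRule L)) (J : Interp L) : Prop := ∀ q ∈ Q, q.body J ≤ J q.head

/-- `I` is a stable partial model of `P`: the least three-valued model of the reduct `P ^ I`. -/
def Stable (P : Program L) (I : Interp L) : Prop :=
  IsModel (reduct P I) I ∧ ∀ K, IsModel (reduct P I) K → ∀ A, I A ≤ K A

/-- The set of undefined atoms. -/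
def undef (I : Interp L) : Set (HB L) := {A | I A = 1}

/-- `I` is an L-stable model of `P`. -/
def LStable (P : Program L) (I : Interp L) : Prop :=
  Stable P I ∧ ¬ ∃ J, Stable P J ∧ undef J ⊂ undef I

/-! ### The value form of the reduct -/

theorem le_two (x : Fin 3) : x ≤ 2 := by revert x; decide

theorem foldr_min_le (J : Interp L) (l : List (HB L)) (x : Fin 3) :
    x ≤ l.foldr (fun b v => min (J b) v) 2 ↔ ∀ b ∈ l, x ≤ J b := by
  induction l with
  | nil =>
    simp only [List.foldr_nil, List.not_mem_nil, false_implies, implies_true, iff_true]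
    revert x; decide
  | cons b l ih => simp [ih]

theorem isModel_iff (P : Program L) (I J : Interp L) :
    IsModel (reduct P I) J ↔ ∀ r ∈ gr P, ∀ x : Fin 3, (∀ b ∈ r.pos, x ≤ J b) →
      (∀ b ∈ r.neg, x ≤ Fin.rev (I b)) → x ≤ J r.head := by
  constructor
  · intro h r hr x h1 h2
    by_cases hx : x = 0
    · rw [hx]
      exact Fin.zero_le _
    have h3 : ∀ b ∈ r.neg, I b ≠ 2 := by
      intro b hb hb2
      have := h2 b hb
      rw [hb2] at this
      exact hx (le_antisymm this (Fin.zero_le _))
    classical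
    have hq := h ⟨r.head, r.pos, decide (∃ b ∈ r.neg, I b = 1)⟩
      ⟨r, hr, h3, rfl, rfl, by simp⟩
    refine le_trans (le_min ((foldr_min_le J _ x).2 h1) ?_) hq
    by_cases hu : ∃ b ∈ r.neg, I b = 1
    · obtain ⟨b, hb, hb1⟩ := hu
      have := h2 b hb
      rw [hb1] at this
      have hd : decide (∃ b ∈ r.neg, I b = 1) = true := by
        simpa using ⟨b, hb, hb1⟩
      simp only [hd, if_true]
      exact this
    · have hd : decide (∃ b ∈ r.neg, I b = 1) = false := by simpa using hu
      simp only [hd, Bool.false_eq_true, if_false]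
      exact le_two x
  · rintro h ⟨qh, qp, qu⟩ ⟨r, hr, h3, rfl, rfl, hu⟩
    refine h r hr _ ?_ ?_
    · exact (foldr_min_le J _ _).1 (min_le_left _ _)
    · intro b hb
      refine (min_le_right _ _).trans ?_
      have h4 := h3 b hb
      simp only at hu ⊢
      by_cases h1 : I b = 1
      · have : qu = true := hu.2 ⟨b, hb, h1⟩
        rw [this, h1, if_pos rfl]
        exact le_rfl
      · have h0 : I b = 0 := by
          revert h1 h4
          generalize I b = y
          revert y; decide
        rw [h0]
        exact le_two _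

/-! ### The language and the program -/

/-- Function symbols: the constant `0` and the unary `s`. -/
inductive Fn : ℕ → Type
  | zero : Fn 0
  | succ : Fn 1

/-- Five unary predicate symbols. -/
inductive Pr : ℕ → Type
  | a : Pr 1
  | b : Pr 1
  | r : Pr 1
  | seen : Pr 1
  | w : Pr 1

/-- The language. -/
def L₀ : Lang := ⟨Fn, Pr⟩

/-- The term `s t`. -/
def sT {V : Type} (t : L₀.Term V) : L₀.Term V := Term.func (l := 1) Fn.succ fun _ => t

/-- The term `0`. -/
def zT {V : Type} : L₀.Term V := Term.func (l := 0) Fn.zero Fin.elim0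

/-- A unary atom. -/
def at1 {V : Type} (R : Pr 1) (t : L₀.Term V) : Atom L₀ V := ⟨1, R, fun _ => t⟩

/-- The variable `X`. -/
def X : L₀.Term ℕ := Term.var 0

/-- The program. -/
def prog : Program L₀ :=
  [⟨at1 .a X, [], [at1 .b X]⟩,
   ⟨at1 .b X, [], [at1 .a X]⟩,
   ⟨at1 .r X, [at1 .a X], []⟩,
   ⟨at1 .r X, [at1 .r (sT X)], []⟩,
   ⟨at1 .seen (sT X), [at1 .seen X], []⟩,
   ⟨at1 .seen (sT X), [at1 .a X], []⟩,
   ⟨at1 .w X, [at1 .seen X], [at1 .w X]⟩,
   ⟨at1 .w X, [], [at1 .w X, at1 .r zT]⟩]

/-- Numerals. -/
def num : ℕ → L₀.Term Empty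
  | 0 => zT
  | n + 1 => sT (num n)

/-- The value of a ground term. -/
def val : L₀.Term Empty → ℕ
  | .var e => e.elim
  | .func (l := 0) _ _ => 0
  | .func (l := 1) _ ts => val (ts 0) + 1
  | .func (l := _ + 2) _ _ => 0

theorem val_num (n : ℕ) : val (num n) = n := by
  induction n with
  | zero => rfl
  | succ n ih =>
    change val (num n) + 1 = n + 1
    rw [ih]

theorem num_val (t : L₀.Term Empty) : num (val t) = t := by
  induction t with
  | var e => exact e.elim
  | @func l f ts ih =>
    match l, f, ts, ih with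
    | 0, Fn.zero, ts, _ =>
      change zT = _
      unfold zT
      congr
      funext i
      exact i.elim0
    | 1, Fn.succ, ts, ih =>
      change sT (num (val (ts 0))) = _
      rw [ih 0]
      unfold sT
      congr
      funext i
      rw [Subsingleton.elim i 0]

/-- The ground atom `R (s^n 0)`. -/
abbrev at0 (R : Pr 1) (n : ℕ) : HB L₀ := at1 R (num n)

/-- Every ground atom is of the form `R (s^n 0)`. -/
theorem hb_cases (A : HB L₀) : ∃ R n, A = at0 R n := by
  obtain ⟨l, R, ts⟩ := A
  match l, R, ts with
  | 1, R, ts =>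
    refine ⟨R, val (ts 0), ?_⟩
    unfold at0 at1
    rw [num_val]
    congr
    funext i
    rw [Subsingleton.elim i 0]

/-- The interpretation given by a function. -/
def toI (F : Pr 1 → ℕ → Fin 3) : Interp L₀ := fun A =>
  match A with
  | ⟨1, R, ts⟩ => F R (val (ts 0))
  | ⟨0, _, _⟩ => 0
  | ⟨_ + 2, _, _⟩ => 0

theorem toI_at (F : Pr 1 → ℕ → Fin 3) (R : Pr 1) (n : ℕ) : toI F (at0 R n) = F R n := by
  change F R (val (num n)) = F R n
  rw [val_num]

theorem mem_gr (q : Rule L₀ Empty) : q ∈ gr prog ↔ ∃ n, q ∈ (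
  [⟨at0 .a n, [], [at0 .b n]⟩,
   ⟨at0 .b n, [], [at0 .a n]⟩,
   ⟨at0 .r n, [at0 .a n], []⟩,
   ⟨at0 .r n, [at0 .r (n + 1)], []⟩,
   ⟨at0 .seen (n + 1), [at0 .seen n], []⟩,
   ⟨at0 .seen (n + 1), [at0 .a n], []⟩,
   ⟨at0 .w n, [at0 .seen n], [at0 .w n]⟩,
   ⟨at0 .w n, [], [at0 .w n, at0 .r 0]⟩] : List (Rule L₀ Empty)) := by
  have hz : ∀ σ : ℕ → L₀.Term Empty, (zT : L₀.Term ℕ).subst σ = zT := by
    intro σ
    unfold zT
    simp only [Term.subst]
    congr
    funext i
    exact i.elim0
  have key : ∀ (σ : ℕ → L₀.Term Empty) (n : ℕ), σ 0 = num n →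
      prog.map (fun r => r.inst σ) =
        [⟨at0 .a n, [], [at0 .b n]⟩,
         ⟨at0 .b n, [], [at0 .a n]⟩,
         ⟨at0 .r n, [at0 .a n], []⟩,
         ⟨at0 .r n, [at0 .r (n + 1)], []⟩,
         ⟨at0 .seen (n + 1), [at0 .seen n], []⟩,
         ⟨at0 .seen (n + 1), [at0 .a n], []⟩,
         ⟨at0 .w n, [at0 .seen n], [at0 .w n]⟩,
         ⟨at0 .w n, [], [at0 .w n, at0 .r 0]⟩] := by
    intro σ n h
    have h1 : ∀ R, (at1 R X).inst σ = at0 R n := by
      intro R
      simp [Atom.inst, at1, X, Term.subst, h]
    have h2 : ∀ R, (at1 R (sT X)).inst σ = at0 R (n + 1) := by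
      intro R
      simp [Atom.inst, at1, X, sT, Term.subst, h, num]
    have h3 : ∀ R, (at1 R zT).inst σ = at0 R 0 := by
      intro R
      simp [Atom.inst, at1, hz, num]
    simp [prog, Rule.inst, h1, h2, h3]
  constructor
  · rintro ⟨r, hr, σ, rfl⟩
    refine ⟨val (σ 0), ?_⟩
    rw [← key σ _ (num_val _).symm]
    exact List.mem_map_of_mem hr
  · rintro ⟨n, hn⟩
    rw [← key (fun _ => num n) n rfl] at hn
    obtain ⟨r, hr, rfl⟩ := List.mem_map.1 hn
    exact ⟨r, hr, _, rfl⟩

/-- The model condition, in terms of functions. -/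
def Cond (F G : Pr 1 → ℕ → Fin 3) : Prop :=
  (∀ n, Fin.rev (F .b n) ≤ G .a n) ∧
  (∀ n, Fin.rev (F .a n) ≤ G .b n) ∧
  (∀ n, G .a n ≤ G .r n) ∧
  (∀ n, G .r (n + 1) ≤ G .r n) ∧
  (∀ n, G .seen n ≤ G .seen (n + 1)) ∧
  (∀ n, G .a n ≤ G .seen (n + 1)) ∧
  (∀ n, min (G .seen n) (Fin.rev (F .w n)) ≤ G .w n) ∧
  (∀ n, min (Fin.rev (F .w n)) (Fin.rev (F .r 0)) ≤ G .w n)

theorem model_iff_cond (I J : Interp L₀) :
    IsModel (reduct prog I) J ↔ Cond (fun R n => I (at0 R n)) (fun R n => J (at0 R n)) := by
  rw [isModel_iff]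
  constructor
  · intro h
    have h' : ∀ n, ∀ q ∈ (
      [⟨at0 .a n, [], [at0 .b n]⟩,
       ⟨at0 .b n, [], [at0 .a n]⟩,
       ⟨at0 .r n, [at0 .a n], []⟩,
       ⟨at0 .r n, [at0 .r (n + 1)], []⟩,
       ⟨at0 .seen (n + 1), [at0 .seen n], []⟩,
       ⟨at0 .seen (n + 1), [at0 .a n], []⟩,
       ⟨at0 .w n, [at0 .seen n], [at0 .w n]⟩,
       ⟨at0 .w n, [], [at0 .w n, at0 .r 0]⟩] : List (Rule L₀ Empty)), _ :=
      fun n q hq => h q ((mem_gr q).2 ⟨n, hq⟩)
    simp only [List.mem_cons, List.not_mem_nil, or_false, forall_eq_or_imp, forall_eq,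
      false_implies, implies_true, true_implies] at h'
    refine ⟨fun n => ?_, fun n => ?_, fun n => ?_, fun n => ?_, fun n => ?_, fun n => ?_,
      fun n => ?_, fun n => ?_⟩
    · exact (h' n).1 _ le_rfl
    · exact (h' n).2.1 _ le_rfl
    · exact (h' n).2.2.1 _ le_rfl
    · exact (h' n).2.2.2.1 _ le_rfl
    · exact (h' n).2.2.2.2.1 _ le_rfl
    · exact (h' n).2.2.2.2.2.1 _ le_rfl
    · exact (h' n).2.2.2.2.2.2.1 _ (min_le_left _ _) (min_le_right _ _)
    · exact (h' n).2.2.2.2.2.2.2 _ ⟨min_le_left _ _, min_le_right _ _⟩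
  · rintro ⟨h1, h2, h3, h4, h5, h6, h7, h8⟩ q hq x
    rw [mem_gr] at hq
    obtain ⟨n, hq⟩ := hq
    simp only [List.mem_cons, List.not_mem_nil, or_false] at hq
    rcases hq with rfl | rfl | rfl | rfl | rfl | rfl | rfl | rfl <;>
      simp only [List.mem_cons, List.not_mem_nil, or_false, forall_eq_or_imp, forall_eq,
        false_implies, implies_true, true_implies]
    · exact fun h => h.trans (h1 n)
    · exact fun h => h.trans (h2 n)
    · exact fun h => h.trans (h3 n)
    · exact fun h => h.trans (h4 n)
    · exact fun h => h.trans (h5 n)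
    · exact fun h => h.trans (h6 n)
    · exact fun h h' => (le_min h h').trans (h7 n)
    · exact fun h => (le_min h.1 h.2).trans (h8 n)

/-- Stability, in terms of functions. -/
def StableF (F : Pr 1 → ℕ → Fin 3) : Prop :=
  Cond F F ∧ ∀ G, Cond F G → ∀ R n, F R n ≤ G R n

theorem stable_iff (I : Interp L₀) : Stable prog I ↔ StableF (fun R n => I (at0 R n)) := by
  unfold Stable StableF
  rw [model_iff_cond]
  refine and_congr_right fun _ => ⟨fun h G hG R n => ?_, fun h K hK A => ?_⟩
  · have := h (toI G) (by
      rw [model_iff_cond]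
      simpa only [toI_at] using hG) (at0 R n)
    rwa [toI_at] at this
  · obtain ⟨R, n, rfl⟩ := hb_cases A
    exact h _ ((model_iff_cond I K).1 hK) R n

/-! ### The combinatorics of the program -/

/-- The stable partial model in which `a k` is the only true atom `a n`. -/
def Jk (k : ℕ) : Pr 1 → ℕ → Fin 3
  | .a, n => if n = k then 2 else 0
  | .b, n => if n = k then 0 else 2
  | .r, n => if n ≤ k then 2 else 0
  | .seen, n => if k < n then 2 else 0
  | .w, n => if k < n then 1 else 0

theorem Jk_stable (k : ℕ) : StableF (Jk k) := by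
  refine ⟨⟨fun n => ?_, fun n => ?_, fun n => ?_, fun n => ?_, fun n => ?_, fun n => ?_,
      fun n => ?_, fun n => ?_⟩, fun G hG R n => ?_⟩
  · simp only [Jk]; split_ifs <;> decide
  · simp only [Jk]; split_ifs <;> decide
  · simp only [Jk]
    split_ifs <;> first | exact Fin.zero_le _ | exact le_rfl | omega
  · simp only [Jk]
    split_ifs <;> first | exact Fin.zero_le _ | exact le_rfl | omega
  · simp only [Jk]
    split_ifs <;> first | exact Fin.zero_le _ | exact le_rfl | omega
  · simp only [Jk]
    split_ifs <;> first | exact Fin.zero_le _ | exact le_rfl | omega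
  · simp only [Jk]; split_ifs <;> decide
  · simp only [Jk, Nat.zero_le, if_true]; split_ifs <;> decide
  · obtain ⟨h1, h2, h3, h4, h5, h6, h7, h8⟩ := hG
    have hak : G .a k = 2 := by
      refine le_antisymm (le_two _) (le_trans ?_ (h1 k))
      simp [Jk]
    have hr' : ∀ d m, m + d = k → G .r m = 2 := by
      intro d
      induction d with
      | zero =>
        intro m hm
        refine le_antisymm (le_two _) ?_
        rw [Nat.add_zero] at hm
        rw [← hak, hm]
        exact h3 _
      | succ d ih =>
        intro m hm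
        refine le_antisymm (le_two _) ?_
        rw [← ih (m + 1) (by omega)]
        exact h4 m
    have hr : ∀ m, m ≤ k → G .r m = 2 := fun m hm => hr' (k - m) m (by omega)
    have hs : ∀ d, G .seen (k + 1 + d) = 2 := by
      intro d
      induction d with
      | zero =>
        refine le_antisymm (le_two _) ?_
        rw [← hak]
        exact h6 _
      | succ d ih =>
        refine le_antisymm (le_two _) ?_
        rw [← ih]
        exact h5 _
    have hs' : ∀ m, k < m → G .seen m = 2 := by
      intro m hm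
      obtain ⟨d, rfl⟩ := Nat.exists_eq_add_of_le hm
      exact hs d
    cases R with
    | a =>
      simp only [Jk]
      split_ifs with h
      · rw [h, hak]
      · exact Fin.zero_le _
    | b =>
      simp only [Jk]
      split_ifs with h
      · exact Fin.zero_le _
      · refine le_trans ?_ (h2 n)
        simp [Jk, h]
    | r =>
      simp only [Jk]
      split_ifs with h
      · rw [hr n h]
      · exact Fin.zero_le _
    | seen =>
      simp only [Jk]
      split_ifs with h
      · rw [hs' n h]
      · exact Fin.zero_le _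
    | w =>
      simp only [Jk]
      split_ifs with h
      · refine le_trans ?_ (h7 n)
        rw [hs' n h]
        simp only [Jk, h, if_true]
        decide
      · exact Fin.zero_le _

theorem w_ne_two {F : Pr 1 → ℕ → Fin 3} (hF : StableF F) (m : ℕ) : F .w m ≠ 2 := by
  intro hm
  classical
  obtain ⟨h1, h2, h3, h4, h5, h6, h7, h8⟩ := hF.1
  let G : Pr 1 → ℕ → Fin 3 := fun R n => match R with
    | .w => if F .w n = 2 then 0 else F .w n
    | R => F R n
  have hG : Cond F G := by
    refine ⟨h1, h2, h3, h4, h5, h6, fun n => ?_, fun n => ?_⟩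
    · by_cases h : F .w n = 2
      · rw [h]
        exact (min_le_right _ _).trans (Fin.zero_le _)
      · have e : G .w n = F .w n := if_neg h
        rw [e]
        exact h7 n
    · by_cases h : F .w n = 2
      · rw [h]
        exact (min_le_left _ _).trans (Fin.zero_le _)
      · have e : G .w n = F .w n := if_neg h
        rw [e]
        exact h8 n
  have := hF.2 G hG .w m
  have e : G .w m = 0 := if_pos hm
  rw [hm, e] at this
  exact absurd this (by decide)

/-- `w m` is undefined as soon as `seen m` or `¬ r 0` is not false. -/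
theorem w_eq_one {F : Pr 1 → ℕ → Fin 3} (hF : StableF F) (m : ℕ)
    (h : F .seen m ≠ 0 ∨ F .r 0 ≠ 2) : F .w m = 1 := by
  have h2 := w_ne_two hF m
  have h0 : F .w m ≠ 0 := by
    intro h0
    rcases h with h | h
    · have := hF.1.2.2.2.2.2.2.1 m
      rw [h0] at this
      revert this h
      generalize F .seen m = x
      revert x; decide
    · have := hF.1.2.2.2.2.2.2.2 m
      rw [h0] at this
      revert this h
      generalize F .r 0 = x
      revert x; decide
  revert h0 h2
  generalize F .w m = x
  revert x; decide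

/-- If `r 0` is true then some `a n` is not false. -/
theorem exists_a {F : Pr 1 → ℕ → Fin 3} (hF : StableF F) (h : F .r 0 = 2) :
    ∃ n, F .a n ≠ 0 := by
  by_contra hcon
  push Not at hcon
  obtain ⟨h1, h2, h3, h4, h5, h6, h7, h8⟩ := hF.1
  let G : Pr 1 → ℕ → Fin 3 := fun R n => match R with
    | .r => 0
    | R => F R n
  have hG : Cond F G :=
    ⟨h1, h2, fun n => (hcon n).le, fun n => le_rfl, h5, h6, h7, h8⟩
  have := hF.2 G hG .r 0
  rw [h] at this
  have e : G .r 0 = 0 := rfl
  rw [e] at this
  exact absurd this (by decide)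

/-- Every stable partial model is beaten by some `Jk k`. -/
theorem beaten {F : Pr 1 → ℕ → Fin 3} (hF : StableF F) :
    ∃ k, F .w k = 1 ∧ ∀ m, k < m → F .w m = 1 := by
  by_cases h : F .r 0 = 2
  · obtain ⟨n, hn⟩ := exists_a hF h
    have hs : ∀ d, F .seen (n + 1 + d) ≠ 0 := by
      intro d
      induction d with
      | zero =>
        have := hF.1.2.2.2.2.2.1 n
        intro h0
        rw [Nat.add_zero] at h0
        rw [h0] at this
        exact hn (le_antisymm this (Fin.zero_le _))
      | succ d ih =>
        have := hF.1.2.2.2.2.1 (n + 1 + d)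
        intro h0
        rw [show n + 1 + (d + 1) = n + 1 + d + 1 by omega] at h0
        rw [h0] at this
        exact ih (le_antisymm this (Fin.zero_le _))
    refine ⟨n + 1, w_eq_one hF _ (Or.inl (hs 0)), fun m hm => ?_⟩
    obtain ⟨d, rfl⟩ := Nat.exists_eq_add_of_le hm.le
    exact w_eq_one hF _ (Or.inl (hs d))
  · exact ⟨0, w_eq_one hF _ (Or.inr h), fun m _ => w_eq_one hF _ (Or.inr h)⟩

theorem no_lstable (I : Interp L₀) (hI : Stable prog I) :
    ∃ J, Stable prog J ∧ undef J ⊂ undef I := by
  rw [stable_iff] at hI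
  obtain ⟨k, hk, hm⟩ := beaten hI
  refine ⟨toI (Jk k), ?_, ?_, ?_⟩
  · rw [stable_iff]
    have := Jk_stable k
    simpa only [toI_at] using this
  · intro A hA
    obtain ⟨R, n, rfl⟩ := hb_cases A
    change toI (Jk k) (at0 R n) = 1 at hA
    rw [toI_at] at hA
    cases R with
    | a => simp only [Jk] at hA; split_ifs at hA <;> exact absurd hA (by decide)
    | b => simp only [Jk] at hA; split_ifs at hA <;> exact absurd hA (by decide)
    | r => simp only [Jk] at hA; split_ifs at hA <;> exact absurd hA (by decide)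
    | seen => simp only [Jk] at hA; split_ifs at hA <;> exact absurd hA (by decide)
    | w =>
      simp only [Jk] at hA
      split_ifs at hA with h
      · exact hm n h
      · exact absurd hA (by decide)
  · intro hsub
    have h1 : at0 .w k ∈ undef (toI (Jk k)) := hsub hk
    change toI (Jk k) (at0 .w k) = 1 at h1
    rw [toI_at] at h1
    simp [Jk] at h1

theorem prog_ivf : InternalVariableFree prog := by
  intro r hr A hA x hx
  have hX : ∀ R : Pr 1, (at1 R X).vars = {0} := by
    intro R
    ext x
    simp [Atom.vars, at1, X, Term.varFinset]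
  have hsX : ∀ R : Pr 1, (at1 R (sT X)).vars = {0} := by
    intro R
    ext x
    simp [Atom.vars, at1, sT, X, Term.varFinset]
  have hz : ∀ R : Pr 1, (at1 R (zT : L₀.Term ℕ)).vars = ∅ := by
    intro R
    ext x
    simp [Atom.vars, at1, zT, Term.varFinset]
  simp only [prog, List.mem_cons, List.not_mem_nil, or_false] at hr
  rcases hr with rfl | rfl | rfl | rfl | rfl | rfl | rfl | rfl <;>
    simp only [List.mem_append, List.mem_cons, List.not_mem_nil, or_false, false_or] at hA
  · subst hA; rw [hX] at hx ⊢; exact hx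
  · subst hA; rw [hX] at hx ⊢; exact hx
  · subst hA; rw [hX] at hx ⊢; exact hx
  · subst hA; rw [hsX] at hx; rw [hX]; exact hx
  · subst hA; rw [hX] at hx; rw [hsX]; exact hx
  · subst hA; rw [hX] at hx; rw [hsX]; exact hx
  · rcases hA with rfl | rfl <;> · rw [hX] at hx ⊢; exact hx
  · rcases hA with rfl | rfl
    · rw [hX] at hx ⊢; exact hx
    · rw [hz] at hx; exact hx.elim

theorem fin_fn : Finite (Σ n, L₀.Functions n) := by
  refine Finite.of_injective (β := Fin 2) (fun p => match p with
    | ⟨_, Fn.zero⟩ => 0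
    | ⟨_, Fn.succ⟩ => 1) ?_
  rintro ⟨_, _ | _⟩ ⟨_, _ | _⟩ h <;> simp_all

theorem fin_pr : Finite (Σ n, L₀.Relations n) := by
  refine Finite.of_injective (β := Fin 5) (fun p => match p with
    | ⟨_, Pr.a⟩ => 0
    | ⟨_, Pr.b⟩ => 1
    | ⟨_, Pr.r⟩ => 2
    | ⟨_, Pr.seen⟩ => 3
    | ⟨_, Pr.w⟩ => 4) ?_
  rintro ⟨_, _ | _ | _ | _ | _⟩ ⟨_, _ | _ | _ | _ | _⟩ h <;> simp_all

/-- There is a finite internal-variable-free normal logic program, over a language with finitely
many constant, function and predicate symbols, which has a stable partial model but no L-stable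
model: every stable partial model `I` admits another stable partial model whose set of undefined
atoms is a proper subset of that of `I`. -/
theorem result : ∃ L : Lang, Finite (Σ n, L.Functions n) ∧ Finite (Σ n, L.Relations n) ∧
    ∃ P : Program L, InternalVariableFree P ∧ (∃ I, Stable P I) ∧ (¬ ∃ I, LStable P I) ∧
      ∀ I, Stable P I → ∃ J, Stable P J ∧ undef J ⊂ undef I := by
  refine ⟨L₀, fin_fn, fin_pr, prog, prog_ivf, ⟨toI (Jk 0), ?_⟩, ?_, no_lstable⟩
  · rw [stable_iff]
    have := Jk_stable 0
    simpa only [toI_at] using this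
  · rintro ⟨I, h1, h2⟩
    exact h2 (no_lstable I h1)

end Pool.Agent.Results.MP_718be6_lc.NoLStable
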